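import Mathlib
import Pool.Agent.X297.LO.Stm

set_option autoImplicit false

namespace Pool.Agent.X168.LO

open Pool.Agent.X297.LO

theorem t_PROD : S_PROD := by
  intro n Ω Ω' β _ _ g h a b c x y
  have key : ∀ p : ((Fin n → Ω) × Ω') × ((Fin n → Ω) × Ω') × ((Fin n → Ω) × Ω'),
      (a • (Sum.elim (fun j => g (p.1.1 j)) (h p.1.2) : Fin n ⊕ β → ℤ) +
        b • (Sum.elim (fun j => g (p.2.1.1 j)) (h p.2.1.2) : Fin n ⊕ β → ℤ) +
        c • (Sum.elim (fun j => g (p.2.2.1 j)) (h p.2.2.2) : Fin n ⊕ β → ℤ) = Sum.elim x y) ↔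
      ((∀ j, a • g (p.1.1 j) + b • g (p.2.1.1 j) + c • g (p.2.2.1 j) = x j) ∧
        a • h p.1.2 + b • h p.2.1.2 + c • h p.2.2.2 = y) := by
    intro p
    constructor
    · intro H
      refine ⟨fun j => ?_, ?_⟩
      · have := congrFun H (Sum.inl j)
        simpa using this
      · funext t
        have := congrFun H (Sum.inr t)
        simpa using this
    · rintro ⟨h1, h2⟩
      funext t
      rcases t with j | t
      · simpa using h1 j
      · have := congrFun h2 t
        simpa using this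
  unfold cnt
  rw [← Nat.card_pi, ← Nat.card_prod]
  refine Nat.card_congr
    { toFun := fun p => (fun j => ⟨(p.1.1.1 j, p.1.2.1.1 j, p.1.2.2.1 j), ((key p.1).1 p.2).1 j⟩,
        ⟨(p.1.1.2, p.1.2.1.2, p.1.2.2.2), ((key p.1).1 p.2).2⟩)
      invFun := fun q => ⟨((fun j => (q.1 j).1.1, q.2.1.1), (fun j => (q.1 j).1.2.1, q.2.1.2.1),
        (fun j => (q.1 j).1.2.2, q.2.1.2.2)), (key _).2 ⟨fun j => (q.1 j).2, q.2.2⟩⟩
      left_inv := fun p => rfl
      right_inv := fun q => rfl }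

end Pool.Agent.X168.LO
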